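import Pool.Agent.Run7.h483.VI.TRF4
import Pool.Agent.W683.WA.Symb
import Pool.Agent.W298.WA.Csym
import Pool.Agent.W918.LL.Opr
import Pool.Agent.W792.LL.Dia
import Pool.Agent.W308.LL.Trig

/-! Project VI (MP_1906c1_mp), piece TRF. -/

set_option autoImplicit false

namespace Pool.Agent.Run7.h483.VI

open Pool.Agent.Run7.h47.V

theorem t_TRF : S_TRF :=
  trf Pool.Agent.W918.LL.main Pool.Agent.W792.LL.DiaP.main
    (Pool.Agent.W298.WA.Csym.main Pool.Agent.W683.WA.main) Pool.Agent.W683.WA.main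
    Pool.Agent.W308.LL.Trig.main

end Pool.Agent.Run7.h483.VI
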