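import Pool.Agent.Run7.h47.V.Ifc

/-! Project VI (MP_1906c1_mp), piece TRF: words in the translations. -/

set_option autoImplicit false
set_option linter.unusedSectionVars false

open scoped BigOperators Matrix
open MeasureTheory

namespace Pool.Agent.Run7.h483.VI

open Pool.Agent.W788.MFP.Four Pool.Agent.W792.LL Pool.Agent.W792.WA Pool.Agent.N896.KS
open Pool.Agent.Run7.h47.V
open Pool.Agent.N916.HB (ne_I cay_norm cay_mul)

noncomputable section

/-! ### words -/

section words

variable {Z : Type} [AddCommGroup Z]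

/-- weighted sum over the words of length `n` -/
def sw {E : Type*} [AddCommGroup E] [Module ℂ E] (h : Z →₀ ℂ) : ℕ → (List Z → E) → E
  | 0, F => F []
  | (n + 1), F => ∑ s ∈ h.support, h s • sw h n (fun τ => F (s :: τ))

/-- the product of the phases along a word -/
def pc : (Z → ℝ) → List Z → ℂ
  | w, [] => cay (w 0)
  | w, (s :: τ) => cay (w 0) * pc (fun y => w (y - s)) τ

theorem pc_norm (w : Z → ℝ) (τ : List Z) : ‖pc w τ‖ = 1 := by
  induction τ generalizing w with
  | nil => rw [pc, cay_norm]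
  | cons s τ ih => rw [pc, norm_mul, cay_norm, one_mul, ih]

theorem cay_cont : Continuous cay := by
  unfold cay
  exact (Complex.continuous_ofReal.add continuous_const).div
    (Complex.continuous_ofReal.sub continuous_const) ne_I

theorem pc_meas {Λ : Type} (τ : List Z) (ι : Z → Λ) :
    Measurable fun v : Λ → ℝ => pc (fun y => v (ι y)) τ := by
  induction τ generalizing ι with
  | nil =>
    simp only [pc]
    exact cay_cont.measurable.comp (measurable_pi_apply _)
  | cons s τ ih =>
    simp only [pc]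
    exact (cay_cont.measurable.comp (measurable_pi_apply _)).mul (ih fun y => ι (y - s))

variable {E E' : Type*} [AddCommGroup E] [Module ℂ E] [AddCommGroup E'] [Module ℂ E']

theorem sw_map (h : Z →₀ ℂ) (Φ : E →ₗ[ℂ] E') (n : ℕ) (F : List Z → E) :
    Φ (sw h n F) = sw h n fun τ => Φ (F τ) := by
  induction n generalizing F with
  | zero => rfl
  | succ n ih =>
    simp only [sw, map_sum, map_smul, ih]

theorem sw_smul (h : Z →₀ ℂ) (a : ℂ) (n : ℕ) (F : List Z → E) :
    a • sw h n F = sw h n fun τ => a • F τ :=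
  sw_map h (LinearMap.lsmul ℂ E a) n F

theorem sw_meas {Ω : Type*} [MeasurableSpace Ω] (h : Z →₀ ℂ) (n : ℕ) (F : Ω → List Z → ℂ)
    (hF : ∀ τ, Measurable fun ω => F ω τ) : Measurable fun ω => sw h n (F ω) := by
  induction n generalizing F with
  | zero => exact hF []
  | succ n ih =>
    simp only [sw]
    exact Finset.measurable_fun_sum _ fun s _ => (ih _ fun τ => hF (s :: τ)).const_smul (h s)

theorem sw_int {Ω : Type*} [MeasurableSpace Ω] (μ : Measure Ω) (h : Z →₀ ℂ) (n : ℕ)
    (F : Ω → List Z → ℂ) (hF : ∀ τ, Integrable (fun ω => F ω τ) μ) :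
    Integrable (fun ω => sw h n (F ω)) μ ∧
      ∫ ω, sw h n (F ω) ∂μ = sw h n fun τ => ∫ ω, F ω τ ∂μ := by
  induction n generalizing F with
  | zero => exact ⟨hF [], rfl⟩
  | succ n ih =>
    simp only [sw]
    have h1 : ∀ s ∈ h.support, Integrable (fun ω => h s • sw h n fun τ => F ω (s :: τ)) μ :=
      fun s _ => (ih _ fun τ => hF (s :: τ)).1.smul (h s)
    refine ⟨integrable_finsetSum _ h1, ?_⟩
    rw [integral_finsetSum _ h1]
    refine Finset.sum_congr rfl fun s _ => ?_
    rw [integral_smul, (ih _ fun τ => hF (s :: τ)).2]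

/-- words with letters in the support -/
theorem sw_congr (h : Z →₀ ℂ) (n : ℕ) (F F' : List Z → E)
    (hF : ∀ τ : List Z, τ.length = n → (∀ s ∈ τ, s ∈ h.support) → F τ = F' τ) :
    sw h n F = sw h n F' := by
  induction n generalizing F F' with
  | zero => exact hF [] rfl (by simp)
  | succ n ih =>
    simp only [sw]
    refine Finset.sum_congr rfl fun s hs => ?_
    rw [ih (fun τ => F (s :: τ)) (fun τ => F' (s :: τ)) fun τ h1 h2 => ?_]
    refine hF _ (by simp [h1]) fun t ht => ?_
    rcases List.mem_cons.1 ht with h3 | h3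
    · rw [h3]; exact hs
    · exact h2 t h3

/-! ### operators on functions on a group -/

variable {G : Type} [AddCommGroup G]

/-- sum of translations -/
def tr (h : Z →₀ ℂ) (π : Z →+ G) (u : G → ℂ) (x : G) : ℂ := ∑ s ∈ h.support, h s * u (x - π s)

/-- `c (M c)^n u` -/
def wd (h : Z →₀ ℂ) (π : Z →+ G) (v : G → ℝ) (u : G → ℂ) : ℕ → G → ℂ
  | 0 => fun x => cay (v x) * u x
  | (n + 1) => fun x => cay (v x) * tr h π (wd h π v u n) x

theorem wd_eq (h : Z →₀ ℂ) (π : Z →+ G) (v : G → ℝ) (u : G → ℂ) (n : ℕ) (x : G) :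
    wd h π v u n x = sw h n fun τ => pc (fun y => v (x + π y)) τ * u (x - π τ.sum) := by
  induction n generalizing x with
  | zero => simp [wd, sw, pc]
  | succ n ih =>
    simp only [wd, tr, sw]
    rw [Finset.mul_sum]
    refine Finset.sum_congr rfl fun s _ => ?_
    rw [ih, smul_eq_mul]
    have h1 : ∀ a : ℂ, cay (v x) * (h s * a) = h s * (cay (v x) • a) := by
      intro a; rw [smul_eq_mul]; ring
    rw [h1, sw_smul]
    congr 2
    funext τ
    simp only [pc, smul_eq_mul, map_zero, add_zero, List.sum_cons, map_add, map_sub]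
    have e1 : (fun y => v (x - π s + π y)) = fun y => v (x + (π y - π s)) := by
      funext y; congr 1; abel
    have e2 : x - π s - π τ.sum = x - (π s + π τ.sum) := by abel
    rw [e1, e2]
    ring

end words

/-! ### laws -/

theorem law (ν : Measure ℝ) [IsProbabilityMeasure ν] {Λ Λ' : Type} (ι : Λ → Λ')
    (hι : Function.Injective ι) :
    (Pn ν Λ').map (fun v a => v (ι a)) = Pn ν Λ := by
  classical
  unfold Pn
  apply Measure.eq_infinitePi
  intro s t ht
  rw [Measure.map_apply (by fun_prop) (MeasurableSet.pi s.countable_toSet fun i _ => ht i)]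
  have e : (fun (v : Λ' → ℝ) a => v (ι a)) ⁻¹' (Set.pi s t) =
      Set.pi (s.image ι) (fun b => if h : ∃ a, ι a = b then t h.choose else Set.univ) := by
    ext v
    simp only [Set.mem_preimage, Set.mem_pi, Finset.mem_coe, Finset.mem_image,
      forall_exists_index, and_imp, forall_apply_eq_imp_iff₂]
    refine forall₂_congr fun a _ => ?_
    have h : ∃ a', ι a' = ι a := ⟨a, rfl⟩
    rw [dif_pos h, hι h.choose_spec]
  rw [e, Measure.infinitePi_pi]
  · rw [Finset.prod_image fun a _ b _ hab => hι hab]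
    refine Finset.prod_congr rfl fun a _ => ?_
    have h : ∃ a', ι a' = ι a := ⟨a, rfl⟩
    rw [dif_pos h, hι h.choose_spec]
  · intro b _
    split_ifs with h
    · exact ht _
    · exact MeasurableSet.univ

/-- functions of finitely many coordinates -/
theorem law_loc (ν : Measure ℝ) [IsProbabilityMeasure ν] {Z Λ : Type} (B : Set Z)
    (f : (Z → ℝ) → ℂ) (hf : Measurable f) (hB : ∀ w w' : Z → ℝ, (∀ y ∈ B, w y = w' y) → f w = f w')
    (ι : Z → Λ) (hι : Set.InjOn ι B) :
    ∫ v, f (fun y => v (ι y)) ∂(Pn ν Λ) = ∫ w, f w ∂(Pn ν Z) := by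
  classical
  set ext : (B → ℝ) → (Z → ℝ) := fun w y => if h : y ∈ B then w ⟨y, h⟩ else 0 with hext
  have hem : Measurable ext := by
    refine measurable_pi_lambda _ fun y => ?_
    by_cases h : y ∈ B
    · simp only [hext, h, dif_pos]
      exact measurable_pi_apply _
    · simp only [hext, h, dif_neg, not_false_eq_true]
      exact measurable_const
  have key : ∀ (Λ : Type) (ι : Z → Λ), Set.InjOn ι B →
      ∫ v, f (fun y => v (ι y)) ∂(Pn ν Λ) = ∫ w, f (ext w) ∂(Pn ν B) := by
    intro Λ ι hι
    have h1 := law ν (fun b : B => ι b) hι.injective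
    have h2 : Measurable fun (v : Λ → ℝ) (a : B) => v (ι a) :=
      measurable_pi_lambda _ fun a => measurable_pi_apply _
    have h3 := integral_map (μ := Pn ν Λ) h2.aemeasurable
      (f := fun w => f (ext w)) (hf.comp hem).aestronglyMeasurable
    rw [← h1, h3]
    congr 1
    funext v
    apply hB
    intro y hy
    simp [hext, hy]
  rw [key Λ ι hι]
  exact (key Z id Function.injective_id.injOn).symm

/-! ### boxes -/

variable {d : ℕ}

/-- size of a letter -/
def nm (s : Fin d → ℤ) : ℕ := Finset.univ.sup fun i => (s i).natAbs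

theorem le_nm (s : Fin d → ℤ) (i : Fin d) : (s i).natAbs ≤ nm s :=
  Finset.le_sup (f := fun i => (s i).natAbs) (Finset.mem_univ i)

/-- the box -/
def bo (R : ℕ) : Set (Fin d → ℤ) := {y | ∀ i, (y i).natAbs ≤ R}

theorem pc_loc (D : ℕ) (τ : List (Fin d → ℤ)) (hτ : ∀ s ∈ τ, nm s ≤ D) (w w' : (Fin d → ℤ) → ℝ)
    (hw : ∀ y ∈ bo (τ.length * D), w y = w' y) : pc w τ = pc w' τ := by
  induction τ generalizing w w' with
  | nil =>
    rw [pc, pc, hw 0 (by intro i; simp)]
  | cons s τ ih =>
    rw [pc, pc, hw 0 (by intro i; simp)]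
    congr 1
    refine ih (fun t ht => hτ t (List.mem_cons_of_mem _ ht)) _ _ fun y hy => ?_
    apply hw
    intro i
    have h1 := hy i
    have h2 := (le_nm s i).trans (hτ s List.mem_cons_self)
    rw [List.length_cons, Nat.succ_mul]
    simp only [Pi.sub_apply]
    omega

/-- reduction modulo `L` -/
def red (d L : ℕ) : (Fin d → ℤ) →+ T d L where
  toFun y := fun i => ((y i : ℤ) : ZMod L)
  map_zero' := by funext i; simp
  map_add' x y := by funext i; simp

theorem red_inj {L R : ℕ} (h : 2 * R < L) (x : T d L) :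
    Set.InjOn (fun y => x + red d L y) (bo R) := by
  intro y hy z hz hyz
  have h1 : red d L y = red d L z := add_left_cancel hyz
  funext i
  have h2 : ((y i : ℤ) : ZMod L) = ((z i : ℤ) : ZMod L) := congrFun h1 i
  rw [ZMod.intCast_eq_intCast_iff_dvd_sub] at h2
  have h3 := hy i
  have h4 := hz i
  by_contra hne
  have h5 : z i - y i ≠ 0 := sub_ne_zero.2 (Ne.symm hne)
  have h6 := Int.natAbs_le_of_dvd_ne_zero h2 h5
  simp only [Int.natAbs_natCast] at h6
  omega

/-- moments along a word -/
def mo (ν : Measure ℝ) [IsProbabilityMeasure ν] (τ : List (Fin d → ℤ)) : ℂ :=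
  ∫ w, pc w τ ∂(Pn ν (Fin d → ℤ))

theorem mo_lat (ν : Measure ℝ) [IsProbabilityMeasure ν] (τ : List (Fin d → ℤ)) (x : Fin d → ℤ) :
    ∫ v, pc (fun y => v (x + y)) τ ∂(Pn ν (Fin d → ℤ)) = mo ν τ := by
  refine law_loc ν Set.univ (fun w => pc w τ) (pc_meas τ id) (fun w w' h => ?_)
    (fun y => x + y) (fun a _ b _ h => add_left_cancel h)
  congr 1
  funext y
  exact h y (Set.mem_univ y)

theorem mo_tor (ν : Measure ℝ) [IsProbabilityMeasure ν] (L D : ℕ) [NeZero L]
    (τ : List (Fin d → ℤ)) (hτ : ∀ s ∈ τ, nm s ≤ D) (hL : 2 * (τ.length * D) < L) (x : T d L) :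
    ∫ v, pc (fun y => v (x + red d L y)) τ ∂(Measure.pi fun _ : T d L => ν) = mo ν τ := by
  rw [← Measure.infinitePi_eq_pi]
  exact law_loc ν (bo (τ.length * D)) (fun w => pc w τ) (pc_meas τ id)
    (fun w w' h => pc_loc D τ hτ w w' h) (fun y => x + red d L y) (red_inj hL x)

end

end Pool.Agent.Run7.h483.VI
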