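import Pool.Agent.Run7.h483.VI.TRF1

/-! Project VI (MP_1906c1_mp), piece TRF: the lattice. -/

set_option autoImplicit false
set_option linter.unusedSectionVars false

open scoped BigOperators Matrix
open MeasureTheory

namespace Pool.Agent.Run7.h483.VI

open Pool.Agent.W788.MFP.Four Pool.Agent.W792.LL Pool.Agent.W792.WA Pool.Agent.N896.KS
open Pool.Agent.Run7.h47.V
open Pool.Agent.N916.HB (ne_I cay_norm cay_mul dc_apply dc_norm sm_of int_apply)

noncomputable section

/-! ### abstract estimates -/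

/-- Neumann series with a change of the operator -/
theorem neu {A : Type*} [NormedRing A] (M M' c R R' : A) (q η : ℝ) (hq0 : 0 ≤ q) (hq : q < 1)
    (hc : ‖c‖ ≤ 1) (hM' : ‖M'‖ ≤ q) (hη : ‖M - M'‖ ≤ η) (hR : ‖R‖ ≤ 1 / (1 - q))
    (hR' : ‖R'‖ ≤ 1 / (1 - q)) (h1 : R * (1 - M * c) = 1) (h2 : (1 - M' * c) * R' = 1) (N : ℕ) :
    ‖c * R - ∑ n ∈ Finset.range N, c * (M' * c) ^ n‖ ≤ η / (1 - q) ^ 2 + q ^ N / (1 - q) := by
  have hq' : 0 < 1 - q := by linarith
  have hη0 : 0 ≤ η := (norm_nonneg _).trans hη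
  have e1 : R - R' = R * ((M - M') * c) * R' := by
    calc R - R' = R * ((1 - M' * c) * R') - R * (1 - M * c) * R' := by rw [h2, h1, mul_one, one_mul]
      _ = R * ((M - M') * c) * R' := by noncomm_ring
  have e2 : ∀ N : ℕ, R' = ∑ n ∈ Finset.range N, (M' * c) ^ n + (M' * c) ^ N * R' := by
    intro N
    induction N with
    | zero => simp
    | succ N ih =>
      have h3 : R' = 1 + (M' * c) * R' := by
        rw [← h2]
        noncomm_ring
      rw [Finset.sum_range_succ, pow_succ, mul_assoc, add_assoc]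
      nth_rewrite 1 [ih]
      congr 1
      nth_rewrite 1 [h3]
      rw [mul_add, mul_one]
  have e3 : c * R' - ∑ n ∈ Finset.range N, c * (M' * c) ^ n = c * (M' * c) ^ N * R' := by
    nth_rewrite 1 [e2 N]
    rw [mul_add, Finset.mul_sum, add_sub_cancel_left, mul_assoc]
  have e4 : c * R - ∑ n ∈ Finset.range N, c * (M' * c) ^ n =
      c * (R * ((M - M') * c) * R') + c * (M' * c) ^ N * R' := by
    rw [← e1, ← e3]
    noncomm_ring
  have b1 : ∀ N : ℕ, ‖c * (M' * c) ^ N‖ ≤ q ^ N := by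
    intro N
    induction N with
    | zero => simpa using hc
    | succ N ih =>
      rw [pow_succ, ← mul_assoc, pow_succ]
      refine (norm_mul_le _ _).trans ?_
      refine mul_le_mul ih ((norm_mul_le _ _).trans ?_) (norm_nonneg _) (by positivity)
      calc ‖M'‖ * ‖c‖ ≤ q * 1 := mul_le_mul hM' hc (norm_nonneg _) hq0
        _ = q := mul_one _
  have b2 : ‖(M - M') * c‖ ≤ η :=
    (norm_mul_le _ _).trans ((mul_le_mul hη hc (norm_nonneg _) hη0).trans (by rw [mul_one]))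
  have b3 : ‖c * (R * ((M - M') * c) * R')‖ ≤ η / (1 - q) ^ 2 := by
    refine (norm_mul_le _ _).trans ?_
    have : ‖R * ((M - M') * c) * R'‖ ≤ 1 / (1 - q) * η * (1 / (1 - q)) :=
      (norm_mul_le _ _).trans (mul_le_mul ((norm_mul_le _ _).trans
        (mul_le_mul hR b2 (norm_nonneg _) (by positivity))) hR' (norm_nonneg _) (by positivity))
    calc ‖c‖ * ‖R * ((M - M') * c) * R'‖ ≤ 1 * (1 / (1 - q) * η * (1 / (1 - q))) :=
          mul_le_mul hc this (norm_nonneg _) (by norm_num)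
      _ = η / (1 - q) ^ 2 := by field_simp
  have b4 : ‖c * (M' * c) ^ N * R'‖ ≤ q ^ N / (1 - q) := by
    refine (norm_mul_le _ _).trans ?_
    calc _ ≤ q ^ N * (1 / (1 - q)) := mul_le_mul (b1 N) hR' (norm_nonneg _) (by positivity)
      _ = q ^ N / (1 - q) := by ring
  rw [e4]
  exact (norm_add_le _ _).trans (add_le_add b3 b4)

/-! ### the lattice -/

variable {d : ℕ}

theorem trig_single (g : Fin d → ℤ) :
    trig (Finsupp.single g (1 : ℂ)) = UnitAddTorus.mFourier g := by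
  have h0 : (0 : ℂ) • (UnitAddTorus.mFourier g : C(UnitAddTorus (Fin d), ℂ)) = 0 := by
    ext x
    rw [ContinuousMap.smul_apply, zero_smul]
    rfl
  have h1 := Finsupp.sum_single_index (a := g) (b := (1 : ℂ))
    (h := fun n (c : ℂ) => c • UnitAddTorus.mFourier n) h0
  unfold trig
  rw [h1, one_smul]

theorem opr_trig (hO : S_OPR) (hT : S_TRIG) (h : (Fin d → ℤ) →₀ ℂ) (u : l2 (Fin d → ℤ))
    (x : Fin d → ℤ) : opr (trig h) u x = tr h (AddMonoidHom.id _) u x := by
  rw [((hO d (trig h) (trig h)).1 u x).2]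
  simp only [(hT d).2]
  have hinj : Function.Injective fun s : Fin d → ℤ => x - s := fun a b h => sub_right_injective h
  rw [tsum_eq_sum (s := h.support.image fun s => x - s)]
  · rw [Finset.sum_image fun a _ b _ hab => hinj hab]
    unfold tr
    refine Finset.sum_congr rfl fun s _ => ?_
    rw [sub_sub_cancel]
    rfl
  · intro y hy
    have : h (x - y) = 0 := by
      by_contra hne
      exact hy (Finset.mem_image.2 ⟨x - y, Finsupp.mem_support_iff.2 hne, by abel⟩)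
    rw [this, zero_mul]

theorem opr_mF (hO : S_OPR) (hT : S_TRIG) (g : Fin d → ℤ) (u : l2 (Fin d → ℤ))
    (x : Fin d → ℤ) : opr (UnitAddTorus.mFourier g) u x = u (x - g) := by
  rw [← trig_single, opr_trig hO hT]
  unfold tr
  rw [Finsupp.support_single_ne_zero _ one_ne_zero, Finset.sum_singleton]
  simp

/-- evaluation of the operator as a linear map of the symbol -/
def evl (hO : S_OPR) (u : l2 (Fin d → ℤ)) (x : Fin d → ℤ) : C(UnitAddTorus (Fin d), ℂ) →ₗ[ℂ] ℂ where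
  toFun m := opr m u x
  map_add' m m' := by rw [(hO d m m').2.2.2.1]; rfl
  map_smul' a m := by rw [(hO d m m).2.2.2.2.1 a]; rfl

/-- the symbol of the `n`-th term -/
def Fn (ν : Measure ℝ) [IsProbabilityMeasure ν] (h : (Fin d → ℤ) →₀ ℂ) (n : ℕ) :
    C(UnitAddTorus (Fin d), ℂ) :=
  sw h n fun τ => mo ν τ • UnitAddTorus.mFourier τ.sum

theorem opr_Fn (hO : S_OPR) (hT : S_TRIG) (ν : Measure ℝ) [IsProbabilityMeasure ν]
    (h : (Fin d → ℤ) →₀ ℂ) (n : ℕ) (u : l2 (Fin d → ℤ)) (x : Fin d → ℤ) :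
    opr (Fn ν h n) u x = sw h n fun τ => mo ν τ * u (x - τ.sum) := by
  have h1 := sw_map h (evl hO u x) n fun τ => mo ν τ • UnitAddTorus.mFourier τ.sum
  change opr (Fn ν h n) u x = _ at h1
  rw [h1]
  congr 1
  funext τ
  rw [map_smul, smul_eq_mul]
  change mo ν τ * opr (UnitAddTorus.mFourier τ.sum) u x = _
  rw [opr_mF hO hT]

theorem wd_lat (hO : S_OPR) (hD : S_DIA) (hT : S_TRIG) (h : (Fin d → ℤ) →₀ ℂ)
    (v : (Fin d → ℤ) → ℝ) (u : l2 (Fin d → ℤ)) (n : ℕ) (x : Fin d → ℤ) :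
    (dc v * (opr (trig h) * dc v) ^ n) u x = wd h (AddMonoidHom.id _) v u n x := by
  induction n generalizing x with
  | zero => simp [wd, dc_apply hD]
  | succ n ih =>
    rw [pow_succ', mul_apply_eq_comp, mul_apply_eq_comp,
      mul_apply_eq_comp, dc_apply hD, opr_trig hO hT, wd]
    congr 1
    unfold tr
    refine Finset.sum_congr rfl fun s _ => ?_
    rw [← ih, mul_apply_eq_comp]

theorem lat_n (hO : S_OPR) (hD : S_DIA) (hT : S_TRIG) (ν : Measure ℝ) [IsProbabilityMeasure ν]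
    (h : (Fin d → ℤ) →₀ ℂ) (u : l2 (Fin d → ℤ)) (n : ℕ) (x : Fin d → ℤ) :
    (Measurable fun v : (Fin d → ℤ) → ℝ => (dc v * (opr (trig h) * dc v) ^ n) u x) ∧
    Integrable (fun v : (Fin d → ℤ) → ℝ => (dc v * (opr (trig h) * dc v) ^ n) u x)
      (Pn ν (Fin d → ℤ)) ∧
    ∫ v, (dc v * (opr (trig h) * dc v) ^ n) u x ∂(Pn ν (Fin d → ℤ)) = opr (Fn ν h n) u x := by
  simp only [wd_lat hO hD hT, wd_eq, AddMonoidHom.id_apply]
  have hm : ∀ τ : List (Fin d → ℤ), Measurable fun v : (Fin d → ℤ) → ℝ =>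
      pc (fun y => v (x + y)) τ * u (x - τ.sum) := fun τ =>
    (pc_meas τ fun y => x + y).mul_const _
  have hi : ∀ τ : List (Fin d → ℤ), Integrable (fun v : (Fin d → ℤ) → ℝ =>
      pc (fun y => v (x + y)) τ * u (x - τ.sum)) (Pn ν (Fin d → ℤ)) := fun τ =>
    Integrable.of_bound (hm τ).aestronglyMeasurable ‖u (x - τ.sum)‖
      (Filter.Eventually.of_forall fun v => by rw [norm_mul, pc_norm, one_mul])
  refine ⟨sw_meas h n _ hm, (sw_int _ h n _ hi).1, ?_⟩
  rw [(sw_int _ h n _ hi).2, opr_Fn hO hT]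
  congr 1
  funext τ
  rw [integral_mul_const, mo_lat]

theorem lat (hO : S_OPR) (hD : S_DIA) (hC : S_CSYM) (hS : S_SYMB) (hT : S_TRIG) (ν : Measure ℝ)
    [IsProbabilityMeasure ν] (m : C(UnitAddTorus (Fin d), ℂ)) (h : (Fin d → ℤ) →₀ ℂ) (q η : ℝ)
    (hq0 : 0 ≤ q) (hq : q < 1) (hm : ‖m‖ ≤ q) (hh : ‖trig h‖ ≤ q) (hη : ‖m - trig h‖ ≤ η) (N : ℕ) :
    ‖csym ν m - ∑ n ∈ Finset.range N, Fn ν h n‖ ≤ η / (1 - q) ^ 2 + q ^ N / (1 - q) := by
  set δ := η / (1 - q) ^ 2 + q ^ N / (1 - q) with hδ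
  have hq' : 0 < 1 - q := by linarith
  have hη0 : 0 ≤ η := (norm_nonneg _).trans hη
  have hδ0 : 0 ≤ δ := by positivity
  obtain ⟨a1, a2, -⟩ := hC ν d m (hm.trans_lt hq)
  obtain ⟨b1, -, -⟩ := hC ν d (trig h) (hh.trans_lt hq)
  have hbm : ∀ m' : C(UnitAddTorus (Fin d), ℂ), ‖m'‖ ≤ q → 1 / (1 - ‖m'‖) ≤ 1 / (1 - q) := by
    intro m' hm'
    apply one_div_le_one_div_of_le hq'
    linarith
  have hE : ∀ v : (Fin d → ℤ) → ℝ, ‖dc v * rsv m v -
      ∑ n ∈ Finset.range N, dc v * (opr (trig h) * dc v) ^ n‖ ≤ δ := by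
    intro v
    refine neu (opr m) (opr (trig h)) (dc v) (rsv m v) (rsv (trig h) v) q η hq0 hq
      (dc_norm hD v) ((hO d (trig h) (trig h)).2.1.trans hh) ?_ ((a1 v).1.trans (hbm m hm))
      ((b1 v).1.trans (hbm _ hh)) (a1 v).2.2 (b1 v).2.1 N
    have e1 : opr m - opr (trig h) = opr (m - trig h) := by
      have h1 := (hO d (m - trig h) (trig h)).2.2.2.1
      rw [sub_add_cancel] at h1
      rw [h1, add_sub_cancel_right]
    rw [e1]
    exact (hO d (m - trig h) (trig h)).2.1.trans hη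
  rw [← (hS d).2.1]
  refine ContinuousLinearMap.opNorm_le_bound _ hδ0 fun u => ?_
  have hmeas : ∀ x, Measurable fun v : (Fin d → ℤ) → ℝ => ((dc v * rsv m v -
      ∑ n ∈ Finset.range N, dc v * (opr (trig h) * dc v) ^ n) u) x := by
    intro x
    have e : (fun v : (Fin d → ℤ) → ℝ => ((dc v * rsv m v -
        ∑ n ∈ Finset.range N, dc v * (opr (trig h) * dc v) ^ n) u) x) = fun v =>
        (dc v (rsv m v u)) x - ∑ n ∈ Finset.range N, (dc v * (opr (trig h) * dc v) ^ n) u x := by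
      funext v
      simp only [sub_apply, sum_apply, lp.coeFn_sub,
        Pi.sub_apply, lp.coeFn_sum, Finset.sum_apply]
      rfl
    rw [e]
    exact (a2 u x).2.1.sub (Finset.measurable_fun_sum _ fun n _ => (lat_n hO hD hT ν h u n x).1)
  have sm := sm_of _ hmeas
  have hb : ∀ v : (Fin d → ℤ) → ℝ, ‖(dc v * rsv m v -
      ∑ n ∈ Finset.range N, dc v * (opr (trig h) * dc v) ^ n) u‖ ≤ δ * ‖u‖ := fun v =>
    (ContinuousLinearMap.le_opNorm _ _).trans (mul_le_mul_of_nonneg_right (hE v) (norm_nonneg _))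
  have hi : Integrable (fun v : (Fin d → ℤ) → ℝ => (dc v * rsv m v -
      ∑ n ∈ Finset.range N, dc v * (opr (trig h) * dc v) ^ n) u) (Pn ν (Fin d → ℤ)) :=
    Integrable.of_bound sm.aestronglyMeasurable _ (Filter.Eventually.of_forall hb)
  have key : opr (csym ν m - ∑ n ∈ Finset.range N, Fn ν h n) u =
      ∫ v, (dc v * rsv m v -
      ∑ n ∈ Finset.range N, dc v * (opr (trig h) * dc v) ^ n) u ∂(Pn ν (Fin d → ℤ)) := by
    ext x
    rw [int_apply _ hi]
    have e : (fun v : (Fin d → ℤ) → ℝ => ((dc v * rsv m v -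
        ∑ n ∈ Finset.range N, dc v * (opr (trig h) * dc v) ^ n) u) x) = fun v =>
        (dc v (rsv m v u)) x - ∑ n ∈ Finset.range N, (dc v * (opr (trig h) * dc v) ^ n) u x := by
      funext v
      simp only [sub_apply, sum_apply, lp.coeFn_sub,
        Pi.sub_apply, lp.coeFn_sum, Finset.sum_apply]
      rfl
    rw [e]
    have i1 : Integrable (fun v : (Fin d → ℤ) → ℝ => (dc v (rsv m v u)) x) (Pn ν (Fin d → ℤ)) := by
      refine Integrable.of_bound (a2 u x).2.1.aestronglyMeasurable (1 / (1 - q) * ‖u‖)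
        (Filter.Eventually.of_forall fun v => ?_)
      refine (lp.norm_apply_le_norm (by norm_num) _ x).trans ?_
      refine (ContinuousLinearMap.le_opNorm _ _).trans ?_
      have c1 : ‖rsv m v u‖ ≤ 1 / (1 - q) * ‖u‖ :=
        (ContinuousLinearMap.le_opNorm _ _).trans
          (mul_le_mul_of_nonneg_right ((a1 v).1.trans (hbm m hm)) (norm_nonneg _))
      calc ‖dc v‖ * ‖rsv m v u‖ ≤ 1 * (1 / (1 - q) * ‖u‖) :=
            mul_le_mul (dc_norm hD v) c1 (norm_nonneg _) (by norm_num)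
        _ = _ := one_mul _
    rw [integral_sub i1 (integrable_finsetSum _ fun n _ => (lat_n hO hD hT ν h u n x).2.1),
      integral_finsetSum _ (fun n _ => (lat_n hO hD hT ν h u n x).2.1), (a2 u x).2.2.1]
    have e3 : evl hO u x (csym ν m - ∑ n ∈ Finset.range N, Fn ν h n) =
        evl hO u x (csym ν m) - ∑ n ∈ Finset.range N, evl hO u x (Fn ν h n) := by
      rw [map_sub, map_sum]
    change opr (csym ν m - ∑ n ∈ Finset.range N, Fn ν h n) u x = _ at e3
    rw [e3]
    congr 1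
    exact Finset.sum_congr rfl fun n _ => (lat_n hO hD hT ν h u n x).2.2.symm
  rw [key]
  refine (norm_integral_le_of_norm_le_const (Filter.Eventually.of_forall hb)).trans ?_
  simp

end

end Pool.Agent.Run7.h483.VI
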