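import Pool.Agent.Run7.h483.VI.TRF2
import Pool.Agent.Run7.h47.V.Res

/-! Project VI (MP_1906c1_mp), piece TRF: the torus. -/

set_option autoImplicit false
set_option linter.unusedSectionVars false

open scoped BigOperators Matrix Matrix.Norms.L2Operator
open MeasureTheory

namespace Pool.Agent.Run7.h483.VI

open Pool.Agent.W788.MFP.Four Pool.Agent.W788.BK Pool.Agent.W792.LL Pool.Agent.W792.WA
open Pool.Agent.N896.KS
open Pool.Agent.Run7.h47 Pool.Agent.Run7.h47.V Pool.Agent.W788.MFP.Form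
open Pool.Agent.N916.HB (ne_I cay_norm cay_mul inv_alg)

noncomputable section

variable {d L : ℕ} [NeZero L]

/-! ### characters -/

theorem ach_sum {ι : Type*} (s : Finset ι) (f : ι → ZMod L) :
    (ZMod.stdAddChar (∑ i ∈ s, f i) : ℂ) = ∏ i ∈ s, (ZMod.stdAddChar (f i) : ℂ) := by
  classical
  induction s using Finset.induction_on with
  | empty => simp
  | insert a s ha ih =>
    rw [Finset.sum_insert ha, Finset.prod_insert ha, AddChar.map_add_eq_mul, ih]

theorem mF_pt (s : Fin d → ℤ) (k : T d L) : UnitAddTorus.mFourier s (pt k) = e k (red d L s) := by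
  unfold UnitAddTorus.mFourier e pt red
  simp only [ContinuousMap.coe_mk, AddMonoidHom.coe_mk, ZeroHom.coe_mk]
  rw [ach_sum]
  refine Finset.prod_congr rfl fun i _ => ?_
  have h1 : k i * ((s i : ℤ) : ZMod L) = (((k i).val * s i : ℤ) : ZMod L) := by
    push_cast
    rw [ZMod.natCast_zmod_val]
  rw [h1, ZMod.stdAddChar_coe, fourier_coe_apply]
  congr 1
  push_cast
  ring

theorem e_mul_neg (k x : T d L) : e k x * e k (-x) = 1 := by
  rw [← e_add, add_neg_cancel, e_zero]

theorem e_nn (k x : T d L) : e (-k) (-x) = e k x := by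
  rw [e_neg_left, e_neg, Complex.conj_conj]

/-! ### norms -/

theorem mulVec_norm (A : Matrix (T d L) (T d L) ℂ) (u : T d L → ℂ) :
    nsq (A *ᵥ u) ≤ ‖A‖ ^ 2 * nsq u := by
  have h := Matrix.l2_opNorm_mulVec A (WithLp.toLp 2 u)
  have h1 : ∀ w : T d L → ℂ, ‖(WithLp.toLp 2 w : EuclideanSpace ℂ (T d L))‖ ^ 2 = nsq w := by
    intro w
    rw [EuclideanSpace.norm_sq_eq]
    rfl
  rw [← h1, ← h1, ← mul_pow]
  exact pow_le_pow_left₀ (norm_nonneg _) h 2

theorem norm_le_of (A : Matrix (T d L) (T d L) ℂ) (Q : ℝ) (hQ : 0 ≤ Q)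
    (h : ∀ u : T d L → ℂ, nsq (A *ᵥ u) ≤ Q ^ 2 * nsq u) : ‖A‖ ≤ Q := by
  rw [Matrix.l2_opNorm_def]
  refine ContinuousLinearMap.opNorm_le_bound _ hQ fun u => ?_
  have h1 : ∀ w : T d L → ℂ, ‖(WithLp.toLp 2 w : EuclideanSpace ℂ (T d L))‖ ^ 2 = nsq w := by
    intro w
    rw [EuclideanSpace.norm_sq_eq]
    rfl
  have h2 := h u.ofLp
  rw [← h1, ← h1, ← mul_pow] at h2
  exact (sq_le_sq₀ (norm_nonneg _) (by positivity)).1 h2

theorem CV_norm (Y : T d L → ℂ) (Q : ℝ) (hQ : 0 ≤ Q) (hY : ∀ k, ‖Y k‖ ≤ Q) : ‖CV Y‖ ≤ Q := by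
  refine norm_le_of _ Q hQ fun u => ?_
  rw [nsq_CV]
  have h1 : wf (fun k => ‖Y k‖ ^ 2) u ≤ wf (fun k => Q ^ 2 * 1) u :=
    wf_mono u fun k => by
      rw [mul_one]
      exact pow_le_pow_left₀ (norm_nonneg _) (hY k) 2
  rw [wf_const, wf_one] at h1
  exact h1

/-- the diagonal matrix of the phases -/
def dg (v : T d L → ℝ) : Matrix (T d L) (T d L) ℂ := Matrix.diagonal fun x => cay (v x)

theorem dg_norm (v : T d L → ℝ) : ‖dg v‖ ≤ 1 := by
  rw [dg, Matrix.l2_opNorm_diagonal, pi_norm_le_iff_of_nonneg (by norm_num)]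
  intro x
  rw [cay_norm]

/-! ### the symbol functional -/

/-- the symbol at `k` -/
def Ph (k : T d L) : Matrix (T d L) (T d L) ℂ →ₗ[ℂ] ℂ where
  toFun A := (NN d L : ℂ)⁻¹ * ∑ x, (A *ᵥ e k) x * e k (-x)
  map_add' A B := by
    simp only [Matrix.add_mulVec, Pi.add_apply, add_mul, Finset.sum_add_distrib, mul_add]
  map_smul' a A := by
    simp only [Matrix.smul_mulVec, Pi.smul_apply, smul_eq_mul, RingHom.id_apply]
    rw [Finset.mul_sum, Finset.mul_sum, Finset.mul_sum]
    exact Finset.sum_congr rfl fun x _ => by ring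

theorem Ph_apply (k : T d L) (A : Matrix (T d L) (T d L) ℂ) :
    Ph k A = (NN d L : ℂ)⁻¹ * ∑ x, (A *ᵥ e k) x * e k (-x) := rfl

theorem Ph_eq (k : T d L) (A : Matrix (T d L) (T d L) ℂ) :
    Ph k A = (NN d L : ℂ)⁻¹ * ∑ x, ∑ y, A x y * e k (y - x) := by
  rw [Ph_apply]
  congr 1
  refine Finset.sum_congr rfl fun x _ => ?_
  rw [Matrix.mulVec, dotProduct, Finset.sum_mul]
  refine Finset.sum_congr rfl fun y _ => ?_
  rw [sub_eq_add_neg, e_add, mul_assoc]

theorem nsq_e (k : T d L) : nsq (e k) = NN d L := by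
  unfold nsq
  simp only [norm_e, one_pow]
  rw [Finset.sum_const, Finset.card_univ, nsmul_eq_mul, mul_one, card_T]

theorem Ph_norm (k : T d L) (A : Matrix (T d L) (T d L) ℂ) : ‖Ph k A‖ ≤ ‖A‖ := by
  rw [Ph_apply, norm_mul, norm_inv, Complex.norm_real, Real.norm_of_nonneg NN_pos.le]
  have h1 : ‖∑ x, (A *ᵥ e k) x * e k (-x)‖ ≤ ∑ x, ‖(A *ᵥ e k) x‖ := by
    refine (norm_sum_le _ _).trans (le_of_eq ?_)
    refine Finset.sum_congr rfl fun x _ => ?_
    rw [norm_mul, norm_e, mul_one]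
  have h2 : (∑ x, ‖(A *ᵥ e k) x‖) ^ 2 ≤ NN d L * nsq (A *ᵥ e k) := by
    have h := Finset.sum_mul_sq_le_sq_mul_sq Finset.univ (fun _ : T d L => (1 : ℝ))
      (fun x => ‖(A *ᵥ e k) x‖)
    simp only [one_mul, one_pow, Finset.sum_const, Finset.card_univ, nsmul_eq_mul, mul_one] at h
    rw [card_T] at h
    exact h
  have h3 := mulVec_norm A (e k)
  rw [nsq_e] at h3
  have hN := NN_pos (d := d) (L := L)
  have h4 : (∑ x, ‖(A *ᵥ e k) x‖) ^ 2 ≤ (NN d L * ‖A‖) ^ 2 := by
    refine h2.trans ?_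
    calc NN d L * nsq (A *ᵥ e k) ≤ NN d L * (‖A‖ ^ 2 * NN d L) :=
          mul_le_mul_of_nonneg_left h3 hN.le
      _ = _ := by ring
  have h5 : ∑ x, ‖(A *ᵥ e k) x‖ ≤ NN d L * ‖A‖ :=
    (sq_le_sq₀ (Finset.sum_nonneg fun x _ => norm_nonneg _) (by positivity)).1 h4
  rw [inv_mul_le_iff₀ hN]
  exact h1.trans h5

theorem CV_mulVec_e (Y : T d L → ℂ) (k : T d L) : CV Y *ᵥ e k = fun x => Y k * e k x := by
  funext x
  rw [Matrix.mulVec, dotProduct]
  exact CV_e Y k x

theorem Ph_mul_CV (k : T d L) (A : Matrix (T d L) (T d L) ℂ) (Y : T d L → ℂ) :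
    Ph k (A * CV Y) = Y k * Ph k A := by
  rw [Ph_apply, Ph_apply, ← Matrix.mulVec_mulVec, CV_mulVec_e]
  have : (fun x => Y k * e k x) = Y k • (e k) := rfl
  rw [this, Matrix.mulVec_smul]
  simp only [Pi.smul_apply, smul_eq_mul]
  rw [Finset.mul_sum, Finset.mul_sum, Finset.mul_sum]
  exact Finset.sum_congr rfl fun x _ => by ring

theorem Ph_CV_mul (k : T d L) (A : Matrix (T d L) (T d L) ℂ) (Y : T d L → ℂ) :
    Ph k (CV Y * A) = Y k * Ph k A := by
  rw [Ph_apply, Ph_apply, ← Matrix.mulVec_mulVec]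
  set f := A *ᵥ e k with hf
  have h1 : ∑ x, (CV Y *ᵥ f) x * e k (-x) = ∑ y, f y * ∑ x, CV Y x y * e k (-x) := by
    simp only [Matrix.mulVec, dotProduct, Finset.sum_mul, Finset.mul_sum]
    rw [Finset.sum_comm]
    exact Finset.sum_congr rfl fun y _ => Finset.sum_congr rfl fun x _ => by ring
  have h2 : ∀ y, ∑ x, CV Y x y * e k (-x) = Y k * e k (-y) := by
    intro y
    have h3 := CV_e (fun q => Y (-q)) (-k) y
    rw [← CV_transpose] at h3
    simp only [Matrix.transpose_apply, neg_neg] at h3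
    have h4 : ∀ z : T d L, e (-k) z = e k (-z) := fun z => by rw [e_neg_left, e_neg]
    simp only [h4] at h3
    exact h3
  rw [h1]
  simp only [h2]
  rw [Finset.mul_sum, Finset.mul_sum, Finset.mul_sum]
  exact Finset.sum_congr rfl fun x _ => by ring

theorem Ph_one (k : T d L) : Ph k (1 : Matrix (T d L) (T d L) ℂ) = 1 := by
  rw [Ph_apply]
  simp only [Matrix.one_mulVec, e_mul_neg]
  rw [Finset.sum_const, Finset.card_univ, nsmul_eq_mul, mul_one]
  have : ((Fintype.card (T d L) : ℕ) : ℂ) = (NN d L : ℂ) := by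
    rw [← card_T]; push_cast; rfl
  rw [this, inv_mul_cancel₀ NNc_ne]

/-! ### the words -/

theorem CV_trig (h : (Fin d → ℤ) →₀ ℂ) (u : T d L → ℂ) (x : T d L) :
    (CV (fun q : T d L => trig h (pt (-q))) *ᵥ u) x = tr h (red d L) u x := by
  have h1 : ∀ z : T d L, Kc (fun q : T d L => trig h (pt (-q))) z =
      ∑ s ∈ h.support, h s * if z = red d L s then 1 else 0 := by
    intro z
    have e1 : ∀ q : T d L, trig h (pt (-q)) = ∑ s ∈ h.support, h s * e q (-(red d L s)) := by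
      intro q
      unfold trig
      rw [Finsupp.sum, ContinuousMap.sum_apply]
      refine Finset.sum_congr rfl fun s _ => ?_
      rw [ContinuousMap.smul_apply, smul_eq_mul, mF_pt, e_neg_left, e_neg]
    unfold Kc
    simp only [e1, Finset.sum_mul]
    rw [Finset.sum_comm, Finset.mul_sum]
    refine Finset.sum_congr rfl fun s _ => ?_
    have e2 : ∀ q : T d L, h s * e q (-(red d L s)) * e q z = h s * e q (z - red d L s) := by
      intro q
      rw [mul_assoc, ← e_add]
      congr 2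
      abel
    simp only [e2]
    rw [← Finset.mul_sum, sum_e]
    by_cases hz : z = red d L s
    · rw [if_pos hz, if_pos (sub_eq_zero.2 hz)]
      have := NNc_ne (d := d) (L := L)
      field_simp
    · rw [if_neg hz, if_neg fun h => hz (sub_eq_zero.1 h)]
      ring
  rw [Matrix.mulVec, dotProduct]
  simp only [CV_apply, h1, Finset.sum_mul]
  rw [Finset.sum_comm]
  unfold tr
  refine Finset.sum_congr rfl fun s _ => ?_
  rw [Finset.sum_eq_single (x - red d L s)]
  · rw [sub_sub_cancel, if_pos rfl, mul_one]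
  · intro y _ hy
    rw [if_neg, mul_zero, zero_mul]
    intro h2
    apply hy
    rw [← h2]
    abel
  · intro h2
    exact absurd (Finset.mem_univ _) h2

theorem wd_tor (h : (Fin d → ℤ) →₀ ℂ) (v : T d L → ℝ) (u : T d L → ℂ) (n : ℕ) :
    (dg v * (CV (fun q : T d L => trig h (pt (-q))) * dg v) ^ n) *ᵥ u = wd h (red d L) v u n := by
  induction n with
  | zero =>
    funext x
    rw [pow_zero, mul_one, dg, Matrix.mulVec_diagonal, wd]
  | succ n ih =>
    funext x
    rw [pow_succ', mul_assoc (CV _), ← Matrix.mulVec_mulVec, dg, Matrix.mulVec_diagonal,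
      ← Matrix.mulVec_mulVec, CV_trig, wd]
    congr 1
    have e1 := ih
    rw [dg] at e1
    rw [e1]

theorem Ph_n (ν : Measure ℝ) [IsProbabilityMeasure ν] (h : (Fin d → ℤ) →₀ ℂ) (D n : ℕ)
    (hD : ∀ s ∈ h.support, nm s ≤ D) (hL : 2 * (n * D) < L) (k : T d L) :
    Integrable (fun v : T d L → ℝ =>
      Ph (-k) (dg v * (CV (fun q : T d L => trig h (pt (-q))) * dg v) ^ n))
      (Measure.pi fun _ : T d L => ν) ∧
    ∫ v, Ph (-k) (dg v * (CV (fun q : T d L => trig h (pt (-q))) * dg v) ^ n)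
      ∂(Measure.pi fun _ : T d L => ν) = Fn ν h n (pt k) := by
  simp only [Ph_apply, wd_tor, wd_eq]
  have hm : ∀ (x : T d L) (τ : List (Fin d → ℤ)), Measurable fun v : T d L → ℝ =>
      pc (fun y => v (x + red d L y)) τ * e (-k) (x - red d L τ.sum) := fun x τ =>
    (pc_meas τ fun y => x + red d L y).mul_const _
  have hi : ∀ (x : T d L) (τ : List (Fin d → ℤ)), Integrable (fun v : T d L → ℝ =>
      pc (fun y => v (x + red d L y)) τ * e (-k) (x - red d L τ.sum))
      (Measure.pi fun _ : T d L => ν) := fun x τ =>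
    Integrable.of_bound (hm x τ).aestronglyMeasurable 1
      (Filter.Eventually.of_forall fun v => by rw [norm_mul, pc_norm, one_mul, norm_e])
  have hx : ∀ x : T d L, Integrable (fun v : T d L → ℝ =>
      (sw h n fun τ => pc (fun y => v (x + red d L y)) τ * e (-k) (x - red d L τ.sum)) *
        e (-k) (-x)) (Measure.pi fun _ : T d L => ν) := fun x =>
    (sw_int _ h n _ (hi x)).1.mul_const _
  refine ⟨(integrable_finsetSum _ fun x _ => hx x).const_mul _, ?_⟩
  rw [integral_const_mul, integral_finsetSum _ fun x _ => hx x]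
  have h1 : ∀ x : T d L, ∫ v : T d L → ℝ,
      (sw h n fun τ => pc (fun y => v (x + red d L y)) τ * e (-k) (x - red d L τ.sum)) *
        e (-k) (-x) ∂(Measure.pi fun _ : T d L => ν) = Fn ν h n (pt k) := by
    intro x
    rw [integral_mul_const, (sw_int _ h n _ (hi x)).2, mul_comm, ← smul_eq_mul, sw_smul]
    have h2 : Fn ν h n (pt k) = sw h n fun τ => mo ν τ * e k (red d L τ.sum) := by
      have h3 := sw_map h ((ContinuousMap.evalCLM ℂ (pt k)).toLinearMap :
        C(UnitAddTorus (Fin d), ℂ) →ₗ[ℂ] ℂ) n fun τ => mo ν τ • UnitAddTorus.mFourier τ.sum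
      change Fn ν h n (pt k) = _ at h3
      rw [h3]
      congr 1
      funext τ
      change mo ν τ * UnitAddTorus.mFourier τ.sum (pt k) = _
      rw [mF_pt]
    rw [h2]
    refine sw_congr h n _ _ fun τ hτ hs => ?_
    rw [integral_mul_const, mo_tor ν L D τ (fun s h => hD s (hs s h)) (by rw [hτ]; exact hL) x,
      smul_eq_mul]
    have h4 : e (-k) (-x) * e (-k) (x - red d L τ.sum) = e k (red d L τ.sum) := by
      rw [← e_add, ← e_nn k]
      congr 1
      abel
    rw [← h4]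
    ring
  simp only [h1]
  rw [Finset.sum_const, Finset.card_univ, nsmul_eq_mul, ← mul_assoc]
  have : ((Fintype.card (T d L) : ℕ) : ℂ) = (NN d L : ℂ) := by
    rw [← card_T]; push_cast; rfl
  rw [this, inv_mul_cancel₀ NNc_ne, one_mul]

end

end Pool.Agent.Run7.h483.VI
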