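import Pool.Agent.Run7.h483.VI.TRF3

/-! Project VI (MP_1906c1_mp), piece TRF: the theorem, from the properties of the operators. -/

set_option autoImplicit false
set_option linter.unusedSectionVars false

open scoped BigOperators Matrix Matrix.Norms.L2Operator
open MeasureTheory

namespace Pool.Agent.Run7.h483.VI

open Pool.Agent.W788.MFP.Four Pool.Agent.W788.BK Pool.Agent.W792.LL Pool.Agent.W792.WA
open Pool.Agent.N896.KS
open Pool.Agent.Run7.h47 Pool.Agent.Run7.h47.V Pool.Agent.W788.MFP.Form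
open Pool.Agent.N916.HB (ne_I cay_norm cay_mul inv_alg mS)

noncomputable section

variable {d L : ℕ} [NeZero L]

theorem one_norm : ‖(1 : Matrix (T d L) (T d L) ℂ)‖ ≤ 1 :=
  norm_le_of _ 1 (by norm_num) fun u => by rw [Matrix.one_mulVec]; simp

theorem exists_R (M : Matrix (T d L) (T d L) ℂ) (v : T d L → ℝ) (q : ℝ) (hq0 : 0 ≤ q) (hq : q < 1)
    (hM : ‖M‖ ≤ q) : ∃ R : Matrix (T d L) (T d L) ℂ, (1 - M * dg v) * R = 1 ∧
      R * (1 - M * dg v) = 1 ∧ ‖R‖ ≤ 1 / (1 - q) := by
  have h1 : ‖M * dg v‖ ≤ q := by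
    refine (norm_mul_le _ _).trans ?_
    calc ‖M‖ * ‖dg v‖ ≤ q * 1 := mul_le_mul hM (dg_norm v) (norm_nonneg _) hq0
      _ = q := mul_one _
  haveI : CompleteSpace (Matrix (T d L) (T d L) ℂ) := FiniteDimensional.complete ℂ _
  set U := Units.oneSub (M * dg v) (h1.trans_lt hq) with hU
  have hv : (U : Matrix (T d L) (T d L) ℂ) = 1 - M * dg v := rfl
  refine ⟨((U⁻¹ : (Matrix (T d L) (T d L) ℂ)ˣ) : Matrix (T d L) (T d L) ℂ), ?_, ?_, ?_⟩
  · rw [← hv, Units.mul_inv]
  · rw [← hv, Units.inv_mul]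
  · have h2 : (1 - M * dg v) * ((U⁻¹ : (Matrix (T d L) (T d L) ℂ)ˣ) : Matrix (T d L) (T d L) ℂ) = 1 := by
      rw [← hv, Units.mul_inv]
    set R := ((U⁻¹ : (Matrix (T d L) (T d L) ℂ)ˣ) : Matrix (T d L) (T d L) ℂ) with hR
    have h3 : R = 1 + (M * dg v) * R := by
      rw [← h2]
      noncomm_ring
    have h4 : ‖R‖ ≤ 1 + q * ‖R‖ := by
      nth_rewrite 1 [h3]
      refine (norm_add_le _ _).trans (add_le_add one_norm ((norm_mul_le _ _).trans ?_))
      exact mul_le_mul_of_nonneg_right h1 (norm_nonneg _)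
    rw [le_div_iff₀ (by linarith)]
    linarith

theorem CV_sub (Y Z : T d L → ℂ) : CV (fun k => Y k - Z k) = CV Y - CV Z := by
  have h1 : (fun k => Y k - Z k) = fun k => Y k + (-1) * Z k := by
    funext k
    ring
  rw [h1, CV_add, CV_smul]
  ext x y
  simp [sub_eq_add_neg]

theorem CV_const (a : ℂ) : CV (fun _ : T d L => a) = a • (1 : Matrix (T d L) (T d L) ℂ) := by
  have h1 : (fun _ : T d L => a) = fun k => a * (fun _ => 1) k := by
    funext k
    simp
  rw [h1, CV_smul, CV_one]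

/-- the resolvent in terms of the phases -/
theorem RT_form (Y : T d L → ℂ) (hY : ∀ k, Y k - Complex.I ≠ 0) (v : T d L → ℝ)
    (R : Matrix (T d L) (T d L) ℂ)
    (h1 : (1 - CV (fun k => (Y k + Complex.I) / (Y k - Complex.I)) * dg v) * R = 1)
    (h2 : R * (1 - CV (fun k => (Y k + Complex.I) / (Y k - Complex.I)) * dg v) = 1) :
    RT Y v = (1 / (2 * Complex.I)) • ((1 - dg v) * R *
      (CV (fun k => (Y k + Complex.I) / (Y k - Complex.I)) - 1)) := by
  have hI : (2 * Complex.I) ≠ 0 := by simp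
  have e2 : ((1 / (2 * Complex.I)) • (1 : Matrix (T d L) (T d L) ℂ)) *
      (2 * (Complex.I • (1 : Matrix (T d L) (T d L) ℂ))) = 1 := by
    rw [smul_mul_assoc, one_mul, two_mul (Complex.I • (1 : Matrix (T d L) (T d L) ℂ)),
      ← add_smul, smul_smul, ← two_mul, one_div_mul_cancel hI, one_smul]
  have e2' : (1 / (2 * Complex.I)) • (2 * (Complex.I • (1 : Matrix (T d L) (T d L) ℂ))) = 1 := by
    rw [two_mul (Complex.I • (1 : Matrix (T d L) (T d L) ℂ)), ← add_smul, smul_smul, ← two_mul,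
      one_div_mul_cancel hI, one_smul]
  have e3 : CV Y - Complex.I • (1 : Matrix (T d L) (T d L) ℂ) = CV fun k => Y k - Complex.I := by
    rw [← CV_const, ← CV_sub]
  have e4 : CV Y + Complex.I • (1 : Matrix (T d L) (T d L) ℂ) = CV fun k => Y k + Complex.I := by
    rw [← CV_const, ← CV_add]
  have e5 : CV (fun k => (Y k + Complex.I) / (Y k - Complex.I)) - 1 =
      CV fun k => (Y k + Complex.I) / (Y k - Complex.I) - 1 := by
    rw [CV_sub, CV_one]
  have e6 : (CV fun _ : T d L => 2 * Complex.I) = 2 * (Complex.I • (1 : Matrix (T d L) (T d L) ℂ)) := by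
    rw [CV_const, two_mul, two_mul, add_smul]
  have dI : (Complex.I • (1 : Matrix (T d L) (T d L) ℂ)) = Matrix.diagonal fun _ => Complex.I := by
    rw [Matrix.smul_one_eq_diagonal]
  have hinv := inv_alg (A := Matrix (T d L) (T d L) ℂ) (CV Y)
    (CV fun k => (Y k + Complex.I) / (Y k - Complex.I)) (Matrix.diagonal fun x => (v x : ℂ)) (dg v) R
    (Complex.I • 1) (fun a => by simp) ((1 / (2 * Complex.I)) • 1) e2
    (by
      rw [e3, e4, CV_mul]
      congr 1
      funext k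
      rw [mul_comm, div_mul_cancel₀ _ (hY k)])
    (by
      rw [dI, dg, Matrix.diagonal_sub, Matrix.diagonal_add, Matrix.diagonal_mul_diagonal]
      congr 1
      funext x
      exact cay_mul (v x))
    (by
      rw [dI, dg, Matrix.diagonal_sub, Matrix.diagonal_add, Matrix.diagonal_mul_diagonal]
      congr 1
      funext x
      rw [mul_comm]
      exact cay_mul (v x))
    (by
      rw [e3, e5, CV_mul, ← e6]
      congr 1
      funext k
      rw [sub_mul, div_mul_cancel₀ _ (hY k)]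
      ring)
    (by
      rw [e3, e5, CV_mul, ← e6]
      congr 1
      funext k
      rw [mul_sub, mul_comm, div_mul_cancel₀ _ (hY k)]
      ring)
    (by rw [smul_mul_smul_comm, one_mul, Complex.I_mul_I, neg_smul, one_smul]) h1 h2
  unfold RT
  apply Matrix.inv_eq_right_inv
  rw [mul_smul_comm, hinv.1, e2']

theorem Ph_RT (Y : T d L → ℂ) (hY : ∀ k, Y k - Complex.I ≠ 0) (v : T d L → ℝ)
    (R : Matrix (T d L) (T d L) ℂ)
    (h1 : (1 - CV (fun k => (Y k + Complex.I) / (Y k - Complex.I)) * dg v) * R = 1)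
    (h2 : R * (1 - CV (fun k => (Y k + Complex.I) / (Y k - Complex.I)) * dg v) = 1) (k : T d L) :
    Ph k (RT Y v) = 1 / (2 * Complex.I) * (((Y k + Complex.I) / (Y k - Complex.I) - 1) *
      (1 - (1 - (Y k + Complex.I) / (Y k - Complex.I)) * Ph k (dg v * R))) := by
  set μ := fun k => (Y k + Complex.I) / (Y k - Complex.I) with hμ
  have e1 : Ph k R = 1 + μ k * Ph k (dg v * R) := by
    have h3 : R = 1 + CV μ * (dg v * R) := by
      rw [← h1]
      noncomm_ring
    have h4 := congrArg (Ph k) h3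
    rw [map_add, Ph_one, Ph_CV_mul] at h4
    exact h4
  rw [RT_form Y hY v R h1 h2, map_smul, smul_eq_mul]
  congr 1
  have e2 : (1 - dg v) * R * (CV μ - 1) = ((1 - dg v) * R) * CV μ - (1 - dg v) * R := by
    noncomm_ring
  have e3 : (1 - dg v) * R = R - dg v * R := by noncomm_ring
  rw [e2, map_sub, Ph_mul_CV, e3, map_sub, e1]
  change _ = (μ k - 1) * (1 - (1 - μ k) * Ph k (dg v * R))
  ring

theorem mu_ne (y : ℂ) (hy : y - Complex.I ≠ 0) : (y + Complex.I) / (y - Complex.I) - 1 ≠ 0 := by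
  have : (y + Complex.I) / (y - Complex.I) - 1 = 2 * Complex.I / (y - Complex.I) := by
    field_simp
    ring
  rw [this]
  exact div_ne_zero (by simp) hy

/-- the averaged resolvent on the torus -/
theorem GT_form (ν : Measure ℝ) [IsProbabilityMeasure ν] (Y : T d L → ℂ) (c : ℝ) (hc : 0 < c)
    (hY : ∀ k, (Y k).im ≤ -c) (hYI : ∀ k, Y k - Complex.I ≠ 0)
    (R : (T d L → ℝ) → Matrix (T d L) (T d L) ℂ)
    (h1 : ∀ v, (1 - CV (fun k => (Y k + Complex.I) / (Y k - Complex.I)) * dg v) * R v = 1)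
    (h2 : ∀ v, R v * (1 - CV (fun k => (Y k + Complex.I) / (Y k - Complex.I)) * dg v) = 1)
    (k : T d L) :
    Integrable (fun v => Ph k (dg v * R v)) (Measure.pi fun _ : T d L => ν) ∧
    GT ν Y k = 1 / (2 * Complex.I) * (((Y k + Complex.I) / (Y k - Complex.I) - 1) *
      (1 - (1 - (Y k + Complex.I) / (Y k - Complex.I)) *
        ∫ v, Ph k (dg v * R v) ∂(Measure.pi fun _ : T d L => ν))) := by
  have hRX : ∀ v : T d L → ℝ, RT Y v = RX Y 1 v := by
    intro v
    rw [RX_eq_RT]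
    simp
  have hent : ∀ x y : T d L, Integrable (fun v => RT Y v x y) (Measure.pi fun _ : T d L => ν) := by
    intro x y
    simp only [hRX]
    exact Integrable.of_bound (RX_cont hc hY 1 x y).measurable.aestronglyMeasurable c⁻¹
      (Filter.Eventually.of_forall fun v => RX_bd hc hY 1 v x y)
  have hint : Integrable (fun v => Ph k (RT Y v)) (Measure.pi fun _ : T d L => ν) := by
    simp only [Ph_eq]
    exact (integrable_finsetSum _ fun x _ => integrable_finsetSum _ fun y _ =>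
      (hent x y).mul_const _).const_mul _
  have hGT : GT ν Y k = ∫ v, Ph k (RT Y v) ∂(Measure.pi fun _ : T d L => ν) := by
    simp only [Ph_eq]
    rw [integral_const_mul, integral_finsetSum _ fun x _ => integrable_finsetSum _ fun y _ =>
      (hent x y).mul_const _]
    unfold GT
    congr 1
    refine Finset.sum_congr rfl fun x _ => ?_
    rw [integral_finsetSum _ fun y _ => (hent x y).mul_const _]
    exact Finset.sum_congr rfl fun y _ => (integral_mul_const _ _).symm
  set μ := (Y k + Complex.I) / (Y k - Complex.I) with hμ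
  have hμ1 : μ - 1 ≠ 0 := mu_ne _ (hYI k)
  have hμ2 : 1 - μ ≠ 0 := fun h => hμ1 (by linear_combination -h)
  have hI : (2 * Complex.I) ≠ 0 := by simp
  have hform : ∀ v, Ph k (dg v * R v) = (1 - 2 * Complex.I / (μ - 1) * Ph k (RT Y v)) / (1 - μ) := by
    intro v
    rw [Ph_RT Y hYI v (R v) (h1 v) (h2 v) k, ← hμ]
    rw [eq_div_iff hμ2]
    field_simp
    ring
  have hi2 : Integrable (fun v => Ph k (dg v * R v)) (Measure.pi fun _ : T d L => ν) := by
    simp only [hform]
    exact ((integrable_const _).sub (hint.const_mul _)).div_const _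
  refine ⟨hi2, ?_⟩
  rw [hGT]
  have h3 : ∀ v, Ph k (RT Y v) = 1 / (2 * Complex.I) * ((μ - 1) *
      (1 - (1 - μ) * Ph k (dg v * R v))) := fun v => Ph_RT Y hYI v (R v) (h1 v) (h2 v) k
  simp only [h3]
  rw [integral_const_mul, integral_const_mul, integral_sub (integrable_const _)
    (hi2.const_mul _), integral_const_mul]
  simp

theorem mS_lt {c : ℝ} (hc : 0 < c) (X : C(UnitAddTorus (Fin d), ℂ)) (hX : ∀ k, (X k).im ≤ -c)
    (h : ∀ k, X k - Complex.I ≠ 0) : ‖mS X h‖ < 1 := by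
  rw [ContinuousMap.norm_lt_iff _ one_pos]
  intro k
  change ‖(X k + Complex.I) / (X k - Complex.I)‖ < 1
  rw [norm_div, div_lt_one (norm_pos_iff.2 (h k))]
  have h1 : ‖X k + Complex.I‖ ^ 2 < ‖X k - Complex.I‖ ^ 2 := by
    rw [← Complex.normSq_eq_norm_sq, ← Complex.normSq_eq_norm_sq, Complex.normSq_apply,
      Complex.normSq_apply]
    have := hX k
    simp
    nlinarith
  exact (sq_lt_sq₀ (norm_nonneg _) (norm_nonneg _)).1 h1

theorem trf (hO : S_OPR) (hD : S_DIA) (hC : S_CSYM) (hS : S_SYMB) (hT : S_TRIG) : S_TRF := by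
  intro ν _ d c X h hd hc hX ε hε
  set m := mS X h with hm
  have hm1 : ‖m‖ < 1 := mS_lt hc X hX h
  have hm0 : 0 ≤ ‖m‖ := norm_nonneg _
  set q := (1 + ‖m‖) / 2 with hq
  have hq0 : 0 ≤ q := by positivity
  have hq1 : q < 1 := by rw [hq]; linarith
  have hq1' : 0 < 1 - q := by linarith
  have hmq : ‖m‖ ≤ q := by rw [hq]; linarith
  set η := min ((1 - ‖m‖) / 2) (ε * (1 - q) ^ 2 / 8) with hη
  have hη0 : 0 < η := lt_min (by linarith) (by positivity)
  obtain ⟨t, ht⟩ := (hT d).1 m η hη0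
  obtain ⟨N, hN⟩ : ∃ N : ℕ, q ^ N / (1 - q) ≤ ε / 8 := by
    obtain ⟨N, hN⟩ := exists_pow_lt_of_lt_one (by positivity : 0 < ε / 8 * (1 - q)) hq1
    exact ⟨N, by rw [div_le_iff₀ hq1']; exact hN.le⟩
  have hη' : ‖m - trig t‖ ≤ η := by rw [norm_sub_rev]; exact ht
  have htq : ‖trig t‖ ≤ q := by
    have e1 : trig t = m + (trig t - m) := by abel
    rw [e1]
    refine (norm_add_le _ _).trans ?_
    have : η ≤ (1 - ‖m‖) / 2 := min_le_left _ _
    rw [hq]
    linarith
  set δ := η / (1 - q) ^ 2 + q ^ N / (1 - q) with hδ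
  have hδ' : δ ≤ ε / 4 := by
    have : η / (1 - q) ^ 2 ≤ ε / 8 := by
      rw [div_le_iff₀ (by positivity)]
      have : η ≤ ε * (1 - q) ^ 2 / 8 := min_le_right _ _
      linarith
    rw [hδ]
    linarith
  have hlat := lat hO hD hC hS hT ν m t q η hq0 hq1 hmq htq hη' N
  rw [← hδ] at hlat
  set D := t.support.sup nm with hDD
  have hDs : ∀ s ∈ t.support, nm s ≤ D := fun s hs => Finset.le_sup hs
  refine ⟨2 * (N * D) + 1, ?_⟩
  intro L _ hL k
  set Y : T d L → ℂ := fun q : T d L => X (pt (-q)) with hY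
  have hYI : ∀ k, Y k - Complex.I ≠ 0 := fun k => h _
  have hYm : (fun k => (Y k + Complex.I) / (Y k - Complex.I)) = fun q : T d L => m (pt (-q)) := rfl
  set M := CV (fun k => (Y k + Complex.I) / (Y k - Complex.I)) with hM
  set M' := CV (fun q : T d L => trig t (pt (-q))) with hM'
  have hMn : ‖M‖ ≤ q := by
    rw [hM, hYm]
    exact CV_norm _ q hq0 fun k => (m.norm_coe_le_norm _).trans hmq
  have hM'n : ‖M'‖ ≤ q := CV_norm _ q hq0 fun k => ((trig t).norm_coe_le_norm _).trans htq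
  have hMM : ‖M - M'‖ ≤ η := by
    rw [hM, hYm, hM', ← CV_sub]
    exact CV_norm _ η hη0.le fun k => by
      have := (m - trig t).norm_coe_le_norm (pt (-k))
      exact this.trans hη'
  choose R hR1 hR2 hR3 using fun v : T d L → ℝ => exists_R M v q hq0 hq1 hMn
  choose R' hR'1 hR'2 hR'3 using fun v : T d L → ℝ => exists_R M' v q hq0 hq1 hM'n
  obtain ⟨hi, hG⟩ := GT_form ν Y c hc (fun k => hX _) hYI R hR1 hR2 (-k)
  set Cq := ∫ v, Ph (-k) (dg v * R v) ∂(Measure.pi fun _ : T d L => ν) with hCq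
  have htor : ‖Cq - ∑ n ∈ Finset.range N, Fn ν t n (pt k)‖ ≤ δ := by
    have hn : ∀ n ∈ Finset.range N, Integrable (fun v : T d L → ℝ =>
        Ph (-k) (dg v * (M' * dg v) ^ n)) (Measure.pi fun _ : T d L => ν) ∧
        ∫ v, Ph (-k) (dg v * (M' * dg v) ^ n) ∂(Measure.pi fun _ : T d L => ν) =
          Fn ν t n (pt k) := by
      intro n hn
      refine Ph_n ν t D n hDs ?_ k
      have h1 := Finset.mem_range.1 hn
      have h2 : n * D ≤ N * D := Nat.mul_le_mul_right _ h1.le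
      omega
    have e1 : Cq - ∑ n ∈ Finset.range N, Fn ν t n (pt k) =
        ∫ v, Ph (-k) (dg v * R v - ∑ n ∈ Finset.range N, dg v * (M' * dg v) ^ n)
          ∂(Measure.pi fun _ : T d L => ν) := by
      simp only [map_sub, map_sum]
      rw [integral_sub hi (integrable_finsetSum _ fun n hn' => (hn n hn').1),
        integral_finsetSum _ fun n hn' => (hn n hn').1]
      congr 1
      exact Finset.sum_congr rfl fun n hn' => (hn n hn').2.symm
    rw [e1]
    have hb : ∀ v : T d L → ℝ, ‖Ph (-k) (dg v * R v -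
        ∑ n ∈ Finset.range N, dg v * (M' * dg v) ^ n)‖ ≤ δ := fun v =>
      (Ph_norm _ _).trans (neu M M' (dg v) (R v) (R' v) q η hq0 hq1 (dg_norm v) hM'n hMM (hR3 v)
        (hR'3 v) (hR2 v) (hR'1 v) N)
    refine (norm_integral_le_of_norm_le_const (Filter.Eventually.of_forall hb)).trans ?_
    simp
  have hlk : ‖csym ν m (pt k) - ∑ n ∈ Finset.range N, Fn ν t n (pt k)‖ ≤ δ := by
    have := (csym ν m - ∑ n ∈ Finset.range N, Fn ν t n).norm_coe_le_norm (pt k)
    rw [ContinuousMap.sub_apply, ContinuousMap.sum_apply] at this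
    exact this.trans hlat
  have hdif : ‖Cq - csym ν m (pt k)‖ ≤ ε / 2 := by
    have e1 : Cq - csym ν m (pt k) = (Cq - ∑ n ∈ Finset.range N, Fn ν t n (pt k)) -
        (csym ν m (pt k) - ∑ n ∈ Finset.range N, Fn ν t n (pt k)) := by ring
    rw [e1]
    refine (norm_sub_le _ _).trans ?_
    linarith
  have hpt : Y (-k) = X (pt k) := by rw [hY]; simp
  have hμ : (Y (-k) + Complex.I) / (Y (-k) - Complex.I) = m (pt k) := by rw [hpt]; rfl
  rw [hμ] at hG
  have hGS : GS ν X h (pt k) = 1 / (2 * Complex.I) *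
      ((1 - (1 - m (pt k)) * csym ν m (pt k)) * (m (pt k) - 1)) := rfl
  rw [hG, hGS]
  have e2 : 1 / (2 * Complex.I) * ((1 - (1 - m (pt k)) * csym ν m (pt k)) * (m (pt k) - 1)) -
      1 / (2 * Complex.I) * ((m (pt k) - 1) * (1 - (1 - m (pt k)) * Cq)) =
      1 / (2 * Complex.I) * ((m (pt k) - 1) * (1 - m (pt k)) * (Cq - csym ν m (pt k))) := by ring
  rw [e2, norm_mul, norm_mul, norm_mul]
  have n1 : ‖1 / (2 * Complex.I)‖ = 1 / 2 := by simp
  have hmk : ‖m (pt k)‖ ≤ 1 := (m.norm_coe_le_norm _).trans hm1.le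
  have n2 : ‖m (pt k) - 1‖ ≤ 2 := (norm_sub_le _ _).trans (by rw [norm_one]; linarith)
  have n3 : ‖1 - m (pt k)‖ ≤ 2 := by rw [norm_sub_rev]; exact n2
  rw [n1]
  calc 1 / 2 * (‖m (pt k) - 1‖ * ‖1 - m (pt k)‖ * ‖Cq - csym ν m (pt k)‖) ≤
        1 / 2 * (2 * 2 * (ε / 2)) := by gcongr
    _ = ε := by ring

end

end Pool.Agent.Run7.h483.VI
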